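import Mathlib
import Pool.Agent.H.MP_c030b7_lc.Maz

set_option autoImplicit false

namespace Pool.Agent.Results.MP_c030b7_lc.Split

/-- `M` meets every line `a x + b y = c` in exactly two points. -/
def Mazurkiewicz (M : Set (ℝ × ℝ)) : Prop :=
  ∀ a b c : ℝ, (a ≠ 0 ∨ b ≠ 0) → {p ∈ M | a * p.1 + b * p.2 = c}.encard = 2

def graph (h : ℝ → ℝ) : Set (ℝ × ℝ) := Set.range fun x => (x, h x)

/-- The graph is a basis of the plane over the rationals. -/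
def Hamel (h : ℝ → ℝ) : Prop :=
  LinearIndepOn ℚ id (graph h) ∧ Submodule.span ℚ (graph h) = ⊤

/-- Rotation about the origin. -/
noncomputable def rot (θ : ℝ) (p : ℝ × ℝ) : ℝ × ℝ :=
  (Real.cos θ * p.1 - Real.sin θ * p.2, Real.sin θ * p.1 + Real.cos θ * p.2)

theorem result : ∃ M : Set (ℝ × ℝ), Mazurkiewicz M ∧
    ∀ θ : ℝ, ∃ f g : ℝ → ℝ, Hamel f ∧ Hamel g ∧ rot θ '' M = graph f ∪ graph g := by
  obtain ⟨M, h1, h2⟩ := Pool.Agent.H.MP_c030b7_lc.main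
  refine ⟨M, h1, fun θ => ?_⟩
  obtain ⟨f, h3, h4⟩ := h2 θ
  exact ⟨f true, f false, h3 _, h3 _, h4⟩

end Pool.Agent.Results.MP_c030b7_lc.Split
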